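import Mathlib
import Pool.Agent.Lib.P4a7640L.MertensB
import Pool.Agent.Lib.P4a7640.AS

/-!
# The mass of the primes in `(√N, N]` is bounded below
-/

open Filter Topology

namespace Pool.Agent.Lib.P4a7640N

open Pool.Agent.Lib.P4a7640 Pool.Agent.Lib.P4a7640L

/-- if all `m_p ≥ δ` then the hypothesis of (1) holds with `k = 2` -/
theorem slow_of_bdd {m : ℕ → ℝ} {δ : ℝ} (hδ : 0 < δ) (hm : ∀ p : ℕ, p.Prime → δ ≤ m p) :
    ∃ k : ℕ, ∃ c : ℝ, 0 < c ∧ ∀ᶠ N : ℕ in atTop,
      c ≤ ∑ p ∈ (Finset.Icc 1 N).filter (fun p : ℕ => p.Prime ∧ N < p ^ k), m p / (p : ℝ) := by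
  obtain ⟨C, hC0, hC⟩ := mertens_lower
  have hlogN : Tendsto (fun N : ℕ => Real.log N) atTop atTop :=
    Real.tendsto_log_atTop.comp tendsto_natCast_atTop_atTop
  have hll : Tendsto (fun N : ℕ => Real.log (Real.log N)) atTop atTop :=
    Real.tendsto_log_atTop.comp hlogN
  have hexp : Tendsto (fun N : ℕ => C * Real.exp (-(Real.log (Real.log N) - Real.log 2))) atTop
      (𝓝 (C * 0)) := by
    refine Tendsto.const_mul C ?_
    refine Real.tendsto_exp_neg_atTop_nhds_zero.comp ?_
    exact tendsto_atTop_add_const_right _ _ hll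
  rw [mul_zero] at hexp
  have hlog2 : (0:ℝ) < Real.log 2 := Real.log_pos (by norm_num)
  refine ⟨2, δ * (Real.log 2 / 2), by positivity, ?_⟩
  filter_upwards [hexp.eventually_lt_const (show (0:ℝ) < Real.log 2 / 2 by positivity),
    hll.eventually_ge_atTop (Real.log 2), hlogN.eventually_ge_atTop 1, eventually_ge_atTop 3]
    with N h1 h2 h3 h4
  have hN0 : (0:ℝ) < N := by exact_mod_cast (by omega : 0 < N)
  have hlog0 : 0 < Real.log N := by linarith
  have hkey := hC (Real.log (Real.log N) - Real.log 2) (Real.log (Real.log N)) (by linarith)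
    (by linarith) ((Finset.Icc 1 N).filter (fun p : ℕ => p.Prime ∧ N < p ^ 2)) (by
      intro p hp hp1 hp2
      have hp0 : (0:ℝ) < p := by exact_mod_cast hp.pos
      have hlp0 : 0 < Real.log p := Real.log_pos (by exact_mod_cast hp.one_lt)
      unfold ll at hp1 hp2
      have e1 : Real.log p < Real.log N := by
        by_contra hcon
        push Not at hcon
        exact absurd (Real.log_le_log hlog0 hcon) (not_le.2 hp2)
      have e2 : Real.log N < 2 * Real.log p := by
        by_contra hcon
        push Not at hcon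
        have := Real.log_le_log (by linarith) hcon
        rw [Real.log_mul (by norm_num) hlp0.ne'] at this
        linarith
      have e3 : (p:ℝ) < N := by
        by_contra hcon
        push Not at hcon
        exact absurd (Real.log_le_log hN0 hcon) (not_le.2 e1)
      have e4 : (N:ℝ) < (p:ℝ) ^ 2 := by
        by_contra hcon
        push Not at hcon
        have := Real.log_le_log (by positivity) hcon
        rw [Real.log_pow] at this
        push_cast at this
        linarith
      rw [Finset.mem_filter, Finset.mem_Icc]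
      refine ⟨⟨hp.one_lt.le, ?_⟩, hp, ?_⟩
      · exact_mod_cast e3.le
      · exact_mod_cast e4)
  have e5 : Real.log 2 / 2 ≤ ∑ p ∈ (Finset.Icc 1 N).filter (fun p : ℕ => p.Prime ∧ N < p ^ 2),
      (1:ℝ) / p := by linarith
  calc δ * (Real.log 2 / 2) ≤ δ * ∑ p ∈ (Finset.Icc 1 N).filter
        (fun p : ℕ => p.Prime ∧ N < p ^ 2), (1:ℝ) / p := mul_le_mul_of_nonneg_left e5 hδ.le
    _ = ∑ p ∈ (Finset.Icc 1 N).filter (fun p : ℕ => p.Prime ∧ N < p ^ 2), δ * (1 / (p:ℝ)) := by
        rw [Finset.mul_sum]
    _ ≤ _ := by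
        refine Finset.sum_le_sum (fun p hp => ?_)
        rw [Finset.mem_filter] at hp
        rw [mul_one_div]
        exact div_le_div_of_nonneg_right (hm p hp.2.1) (Nat.cast_nonneg _)

end Pool.Agent.Lib.P4a7640N
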