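import Mathlib
import Pool.Agent.Lib.P4a7640.AS
import Pool.Agent.Lib.P4a7640.Sub

/-!
# Concentration uniformly over all sign patterns on the small primes
-/

open MeasureTheory ProbabilityTheory Filter Topology
open scoped ENNReal

namespace Pool.Agent.Lib.P4a7640N

open Pool.Agent.Lib.P4a7640

/-- the sign function with value `-1` exactly on `D` -/
def sD (D : Finset ℕ) : SS := fun p => if p ∈ D then -1 else 1

/-- the constant in the definition of the upper threshold -/
noncomputable def AK (K : ℕ) (η : ℝ) : ℝ := 192 * (K : ℝ) ^ 2 / η ^ 2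

variable {ν : ℕ → Measure ℤˣ} [∀ p, IsProbabilityMeasure (ν p)]

/-- the deviation event for the threshold `T` and the pattern `D` -/
def dev (θ : ℕ → ℝ) (H : Finset ℕ) (N hm : ℕ) (A η : ℝ) (T : ℕ) (D : Finset ℕ) : Set SS :=
  {x | η ≤ |FF (prodSeq (rnd (sD D)) H) H N x -
    AVL θ (PL hm N (A * T)).toList (FF (prodSeq (rnd (sD D)) H) H N) x|}

lemma dev_le {θ : ℕ → ℝ} (hθ : ∀ p, θ p = (ν p).real {-1}) {H : Finset ℕ} (hne : H.Nonempty)
    {N hm : ℕ} (hN : 2 ≤ N) (hH : ∀ h ∈ H, h ≤ hm) (hlog : CH hm ≤ Real.log N) {η : ℝ}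
    (hη : 0 < η) {T : ℕ} (hT1 : 1 ≤ AK H.card η * T) (hT2 : 2 * (hm : ℝ) ≤ AK H.card η * T)
    (D : Finset ℕ) :
    (Measure.infinitePi ν).real (dev θ H N hm (AK H.card η) η T D) ≤ 2 * Real.exp (-(3 * (T : ℝ))) := by
  have hc0 : (0:ℝ) < H.card := by exact_mod_cast hne.card_pos
  have h := conc hθ (w := prodSeq (rnd (sD D)) H) (fun n => (abs_prodSeq _ H n).le) hne hN hH
    (y := AK H.card η * T) hT1 hT2 hlog hη
  refine h.trans (le_of_eq ?_)
  congr 2
  rw [neg_inj]
  unfold AK
  field_simp
  ring

/-- the union of the deviation events over all thresholds `T₀ ≤ T ≤ M` and all patterns -/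
def devU (θ : ℕ → ℝ) (H : Finset ℕ) (N hm : ℕ) (A η : ℝ) (T₀ M : ℕ) : Set SS :=
  ⋃ T ∈ Finset.Icc T₀ M, ⋃ D ∈ (Finset.Icc 1 T).powerset, dev θ H N hm A η T D

lemma devU_le {θ : ℕ → ℝ} (hθ : ∀ p, θ p = (ν p).real {-1}) {H : Finset ℕ} (hne : H.Nonempty)
    {N hm : ℕ} (hN : 2 ≤ N) (hH : ∀ h ∈ H, h ≤ hm) (hlog : CH hm ≤ Real.log N) {η : ℝ}
    (hη : 0 < η) {T₀ M : ℕ} (hT1 : 1 ≤ AK H.card η * T₀) (hT2 : 2 * (hm : ℝ) ≤ AK H.card η * T₀) :
    (Measure.infinitePi ν).real (devU θ H N hm (AK H.card η) η T₀ M) ≤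
      4 * Real.exp (-(2 * (T₀ : ℝ))) := by
  have hA : 0 ≤ AK H.card η := by unfold AK; positivity
  have key : ∀ T ∈ Finset.Icc T₀ M, (Measure.infinitePi ν).real
      (⋃ D ∈ (Finset.Icc 1 T).powerset, dev θ H N hm (AK H.card η) η T D) ≤
      2 * Real.exp (-(2 * (T : ℝ))) := by
    intro T hT
    rw [Finset.mem_Icc] at hT
    have hTT : (T₀ : ℝ) ≤ T := by exact_mod_cast hT.1
    have h1 : 1 ≤ AK H.card η * T := hT1.trans (mul_le_mul_of_nonneg_left hTT hA)
    have h2 : 2 * (hm : ℝ) ≤ AK H.card η * T := hT2.trans (mul_le_mul_of_nonneg_left hTT hA)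
    calc (Measure.infinitePi ν).real
          (⋃ D ∈ (Finset.Icc 1 T).powerset, dev θ H N hm (AK H.card η) η T D)
        ≤ ∑ D ∈ (Finset.Icc 1 T).powerset, (Measure.infinitePi ν).real
            (dev θ H N hm (AK H.card η) η T D) := measureReal_biUnion_finset_le _ _
      _ ≤ ∑ D ∈ (Finset.Icc 1 T).powerset, 2 * Real.exp (-(3 * (T : ℝ))) :=
          Finset.sum_le_sum fun D _ => dev_le hθ hne hN hH hlog hη h1 h2 D
      _ = 2 ^ T * (2 * Real.exp (-(3 * (T : ℝ)))) := by
          rw [Finset.sum_const, Finset.card_powerset, Nat.card_Icc, nsmul_eq_mul]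
          norm_num
      _ ≤ Real.exp T * (2 * Real.exp (-(3 * (T : ℝ)))) := by
          apply mul_le_mul_of_nonneg_right _ (by positivity)
          have h3 : (2:ℝ) ≤ Real.exp 1 := by
            have := Real.add_one_le_exp (1:ℝ)
            linarith
          calc (2:ℝ) ^ T ≤ (Real.exp 1) ^ T := pow_le_pow_left₀ (by norm_num) h3 T
            _ = Real.exp T := by rw [← Real.exp_nat_mul, mul_one]
      _ = 2 * Real.exp (-(2 * (T : ℝ))) := by
          rw [mul_comm (2:ℝ) (Real.exp (-(3 * (T:ℝ)))), ← mul_assoc, ← Real.exp_add, mul_comm]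
          congr 2
          ring
  calc (Measure.infinitePi ν).real (devU θ H N hm (AK H.card η) η T₀ M)
      ≤ ∑ T ∈ Finset.Icc T₀ M, (Measure.infinitePi ν).real
          (⋃ D ∈ (Finset.Icc 1 T).powerset, dev θ H N hm (AK H.card η) η T D) :=
        measureReal_biUnion_finset_le _ _
    _ ≤ ∑ T ∈ Finset.Icc T₀ M, 2 * Real.exp (-(2 * (T : ℝ))) := Finset.sum_le_sum key
    _ ≤ 4 * Real.exp (-(2 * (T₀ : ℝ))) := by
        rw [← Finset.mul_sum]
        have h4 : ∑ T ∈ Finset.Icc T₀ M, Real.exp (-(2 * (T : ℝ))) ≤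
            2 * Real.exp (-(2 * (T₀ : ℝ))) := by
          have h5 : ∀ T ∈ Finset.Icc T₀ M, Real.exp (-(2 * (T : ℝ))) ≤
              Real.exp (-(2 * (T₀ : ℝ))) * (1/2) ^ (T - T₀) := by
            intro T hT
            rw [Finset.mem_Icc] at hT
            have h6 : (T : ℝ) = T₀ + (T - T₀ : ℕ) := by
              rw [Nat.cast_sub hT.1]
              ring
            have h7 : Real.exp (-(2 * (T : ℝ))) = Real.exp (-(2 * (T₀ : ℝ))) *
                Real.exp (-2) ^ (T - T₀) := by
              rw [← Real.exp_nat_mul, ← Real.exp_add, h6]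
              congr 1
              ring
            rw [h7]
            apply mul_le_mul_of_nonneg_left _ (Real.exp_pos _).le
            apply pow_le_pow_left₀ (Real.exp_pos _).le
            rw [Real.exp_neg, ← one_div]
            apply one_div_le_one_div_of_le (by norm_num)
            have := Real.add_one_le_exp (2:ℝ)
            linarith
          calc ∑ T ∈ Finset.Icc T₀ M, Real.exp (-(2 * (T : ℝ)))
              ≤ ∑ T ∈ Finset.Icc T₀ M, Real.exp (-(2 * (T₀ : ℝ))) * (1/2) ^ (T - T₀) :=
                Finset.sum_le_sum h5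
            _ = Real.exp (-(2 * (T₀ : ℝ))) * ∑ T ∈ Finset.Icc T₀ M, (1/2 : ℝ) ^ (T - T₀) := by
                rw [Finset.mul_sum]
            _ ≤ Real.exp (-(2 * (T₀ : ℝ))) * 2 := by
                apply mul_le_mul_of_nonneg_left _ (Real.exp_pos _).le
                calc ∑ T ∈ Finset.Icc T₀ M, (1/2 : ℝ) ^ (T - T₀)
                    ≤ ∑ j ∈ Finset.range (M + 1), (1/2 : ℝ) ^ j := by
                      have hinj : Set.InjOn (fun T => T - T₀) (Finset.Icc T₀ M : Set ℕ) := by
                        intro a ha b hb hab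
                        rw [Finset.coe_Icc, Set.mem_Icc] at ha hb
                        simp only at hab
                        omega
                      rw [← Finset.sum_image (f := fun j => (1/2 : ℝ) ^ j) hinj]
                      apply Finset.sum_le_sum_of_subset_of_nonneg
                      · intro j hj
                        rw [Finset.mem_image] at hj
                        obtain ⟨T, hT, rfl⟩ := hj
                        rw [Finset.mem_Icc] at hT
                        rw [Finset.mem_range]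
                        omega
                      · intro _ _ _
                        positivity
                  _ ≤ 2 := by
                      have := (sum_geometric_two_le (M + 1))
                      simpa using this
            _ = 2 * Real.exp (-(2 * (T₀ : ℝ))) := by ring
        linarith

end Pool.Agent.Lib.P4a7640N
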