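import Mathlib
import Pool.Agent.Lib.P4a7640N.Conc

/-!
# Comparison of a multiplicative function with a nearby twisted random one
-/

open MeasureTheory ProbabilityTheory Filter Topology

namespace Pool.Agent.Lib.P4a7640N

open Pool.Agent.Lib.P4a7640

/-- the mass of the primes in `(T, N]` at which `y` and `x` differ -/
noncomputable def ES (y x : SS) (T N : ℕ) : ℝ :=
  ∑ p ∈ (Finset.Ioc T N).filter (fun p => p.Prime ∧ y p ≠ x p), (1:ℝ) / p

/-- the integers up to `T` at which they differ -/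
def DS (y x : SS) (T : ℕ) : Finset ℕ := (Finset.Icc 1 T).filter fun p => y p ≠ x p

lemma ES_nonneg (y x : SS) (T N : ℕ) : 0 ≤ ES y x T N :=
  Finset.sum_nonneg fun _ _ => by positivity

lemma LA_compare {f g : ℕ → ℤˣ} {H E : Finset ℕ} {N : ℕ} (hN : 2 ≤ N)
    (h : ∀ n ∈ Finset.Icc 1 N, ∀ j ∈ H, f (n + j) ≠ g (n + j) → ∃ p ∈ E, p ∣ n + j) :
    |LA (prodSeq f H) N - LA (prodSeq g H) N| ≤ (∑ j ∈ H, ∑ p ∈ E, 2 * UU N j p) / Real.log N := by
  have hl : 0 < Real.log N := Real.log_pos (by exact_mod_cast hN)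
  have hpt : ∀ n ∈ Finset.Icc 1 N, |prodSeq f H n - prodSeq g H n| ≤
      ∑ j ∈ H, ∑ p ∈ E, (if p ∣ n + j then (2:ℝ) else 0) := by
    intro n hn
    have hnn : ∀ j ∈ H, 0 ≤ ∑ p ∈ E, (if p ∣ n + j then (2:ℝ) else 0) := fun j _ =>
      Finset.sum_nonneg fun p _ => by split_ifs <;> norm_num
    by_cases hall : ∀ j ∈ H, f (n + j) = g (n + j)
    · have h1 : prodSeq f H n = prodSeq g H n := by
        unfold prodSeq
        exact Finset.prod_congr rfl fun j hj => by rw [hall j hj]
      rw [h1, sub_self, abs_zero]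
      exact Finset.sum_nonneg hnn
    · push Not at hall
      obtain ⟨j, hj, hne⟩ := hall
      obtain ⟨p, hp, hpd⟩ := h n hn j hj hne
      have h2 : (2:ℝ) ≤ ∑ p ∈ E, (if p ∣ n + j then (2:ℝ) else 0) := by
        have := Finset.single_le_sum (f := fun p => if p ∣ n + j then (2:ℝ) else 0)
          (fun q _ => by split_ifs <;> norm_num) hp
        simpa [hpd] using this
      calc |prodSeq f H n - prodSeq g H n| ≤ |prodSeq f H n| + |prodSeq g H n| := abs_sub _ _
        _ = 2 := by rw [abs_prodSeq, abs_prodSeq]; norm_num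
        _ ≤ ∑ p ∈ E, (if p ∣ n + j then (2:ℝ) else 0) := h2
        _ ≤ _ := Finset.single_le_sum (f := fun j => ∑ p ∈ E, (if p ∣ n + j then (2:ℝ) else 0))
            hnn hj
  have e1 : LA (prodSeq f H) N - LA (prodSeq g H) N =
      (∑ n ∈ Finset.Icc 1 N, (prodSeq f H n - prodSeq g H n) / n) / Real.log N := by
    unfold LA
    rw [← sub_div, ← Finset.sum_sub_distrib]
    congr 1
    exact Finset.sum_congr rfl fun n _ => by rw [sub_div]
  rw [e1, abs_div, abs_of_pos hl]
  apply div_le_div_of_nonneg_right _ hl.le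
  calc |∑ n ∈ Finset.Icc 1 N, (prodSeq f H n - prodSeq g H n) / n|
      ≤ ∑ n ∈ Finset.Icc 1 N, |(prodSeq f H n - prodSeq g H n) / n| := Finset.abs_sum_le_sum_abs _ _
    _ ≤ ∑ n ∈ Finset.Icc 1 N, (∑ j ∈ H, ∑ p ∈ E, (if p ∣ n + j then (2:ℝ) else 0)) / n := by
        refine Finset.sum_le_sum fun n hn => ?_
        rw [abs_div, abs_of_nonneg (Nat.cast_nonneg (α := ℝ) n)]
        exact div_le_div_of_nonneg_right (hpt n hn) (Nat.cast_nonneg n)
    _ = ∑ j ∈ H, ∑ p ∈ E, ∑ n ∈ Finset.Icc 1 N, (if p ∣ n + j then (2:ℝ) else 0) / n := by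
        simp_rw [Finset.sum_div]
        rw [Finset.sum_comm]
        refine Finset.sum_congr rfl fun j _ => ?_
        rw [Finset.sum_comm]
    _ = ∑ j ∈ H, ∑ p ∈ E, 2 * UU N j p := by
        refine Finset.sum_congr rfl fun j _ => Finset.sum_congr rfl fun p _ => ?_
        unfold UU
        rw [Finset.sum_filter, Finset.mul_sum]
        refine Finset.sum_congr rfl fun n _ => ?_
        by_cases hpd : p ∣ n + j
        · rw [if_pos hpd, if_pos hpd]
          ring
        · rw [if_neg hpd, if_neg hpd]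
          ring

lemma sD_mul (y x : SS) {T p : ℕ} (hp : 1 ≤ p) (h : p ≤ T ∨ y p = x p) :
    y p = sD (DS y x T) p * x p := by
  have hmem : p ∈ DS y x T ↔ (1 ≤ p ∧ p ≤ T) ∧ y p ≠ x p := by
    unfold DS
    rw [Finset.mem_filter, Finset.mem_Icc]
  unfold sD
  by_cases he : y p = x p
  · rw [if_neg (fun hh => (hmem.mp hh).2 he), one_mul, he]
  · rw [if_pos (hmem.mpr ⟨⟨hp, h.resolve_right he⟩, he⟩), neg_one_mul]
    exact Int.units_ne_iff_eq_neg.mp he

lemma rnd_eq (y x : SS) {T m : ℕ} (h : ∀ p : ℕ, p.Prime → p ∣ m → p ≤ T ∨ y p = x p) :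
    rnd y m = rnd (sD (DS y x T)) m * rnd x m := by
  unfold rnd Finsupp.prod
  rw [← Finset.prod_mul_distrib]
  refine Finset.prod_congr rfl fun p hp => ?_
  rw [Nat.support_factorization, Nat.mem_primeFactors] at hp
  rw [← mul_pow, ← sD_mul y x hp.1.one_lt.le (h p hp.1 hp.2.1)]

lemma compare (y x : SS) {H : Finset ℕ} {hm N T : ℕ} (hH : ∀ h ∈ H, h ≤ hm) (hN : 2 ≤ N)
    (hT : 2 * hm ≤ T) :
    |LA (prodSeq (rnd y) H) N - FF (prodSeq (rnd (sD (DS y x T))) H) H N x| ≤
      2 * H.card * (1 + CH hm / Real.log N) * (ES y x T N + hm / N) := by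
  have hl : 0 < Real.log N := Real.log_pos (by exact_mod_cast hN)
  have hN0 : (0:ℝ) < N := by exact_mod_cast (by omega : 0 < N)
  rw [← LA_prodSeq_mul]
  set E := (Finset.Ioc T (N + hm)).filter (fun p => p.Prime ∧ y p ≠ x p) with hE
  have hcmp := LA_compare (f := rnd y) (g := fun n => rnd (sD (DS y x T)) n * rnd x n) (H := H)
    (E := E) (N := N) hN (by
      intro n hn j hj hne
      rw [Finset.mem_Icc] at hn
      by_contra hcon
      push Not at hcon
      apply hne
      apply rnd_eq y x (T := T)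
      intro p hp hpd
      by_contra hcon2
      push Not at hcon2
      have hple : p ≤ N + hm := by
        have h1 := Nat.le_of_dvd (by omega) hpd
        have h2 := hH j hj
        omega
      exact hcon p (by
        rw [hE, Finset.mem_filter, Finset.mem_Ioc]
        exact ⟨⟨hcon2.1, hple⟩, hp, hcon2.2⟩) hpd)
  refine hcmp.trans ?_
  have hEmass : ∑ p ∈ E, (1:ℝ) / p ≤ ES y x T N + hm / N := by
    have hsub : E ⊆ (Finset.Ioc T N).filter (fun p => p.Prime ∧ y p ≠ x p) ∪
        Finset.Ioc N (N + hm) := by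
      intro p hp
      rw [hE, Finset.mem_filter, Finset.mem_Ioc] at hp
      rw [Finset.mem_union, Finset.mem_filter, Finset.mem_Ioc, Finset.mem_Ioc]
      rcases Nat.lt_or_ge N p with h1 | h1
      · exact Or.inr ⟨h1, hp.1.2⟩
      · exact Or.inl ⟨⟨hp.1.1, h1⟩, hp.2⟩
    calc ∑ p ∈ E, (1:ℝ) / p ≤ ∑ p ∈ (Finset.Ioc T N).filter (fun p => p.Prime ∧ y p ≠ x p) ∪
          Finset.Ioc N (N + hm), (1:ℝ) / p :=
          Finset.sum_le_sum_of_subset_of_nonneg hsub fun _ _ _ => by positivity
      _ ≤ ∑ p ∈ (Finset.Ioc T N).filter (fun p => p.Prime ∧ y p ≠ x p), (1:ℝ) / p +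
          ∑ p ∈ Finset.Ioc N (N + hm), (1:ℝ) / p := by
          rw [← Finset.sum_union_inter]
          have : 0 ≤ ∑ p ∈ (Finset.Ioc T N).filter (fun p => p.Prime ∧ y p ≠ x p) ∩
            Finset.Ioc N (N + hm), (1:ℝ) / p := Finset.sum_nonneg fun _ _ => by positivity
          linarith
      _ ≤ ES y x T N + hm / N := by
          apply add_le_add le_rfl
          calc ∑ p ∈ Finset.Ioc N (N + hm), (1:ℝ) / p ≤ ∑ p ∈ Finset.Ioc N (N + hm), (1:ℝ) / N := by
                refine Finset.sum_le_sum fun p hp => ?_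
                rw [Finset.mem_Ioc] at hp
                apply one_div_le_one_div_of_le hN0
                exact_mod_cast hp.1.le
            _ = hm / N := by
                rw [Finset.sum_const, Nat.card_Ioc, nsmul_eq_mul]
                simp only [Nat.add_sub_cancel_left]
                ring
  calc (∑ j ∈ H, ∑ p ∈ E, 2 * UU N j p) / Real.log N
      ≤ (∑ j ∈ H, ∑ p ∈ E, 2 * (1 / p * (Real.log N + CH hm))) / Real.log N := by
        apply div_le_div_of_nonneg_right _ hl.le
        refine Finset.sum_le_sum fun j hj => Finset.sum_le_sum fun p hp => ?_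
        rw [hE, Finset.mem_filter, Finset.mem_Ioc] at hp
        apply mul_le_mul_of_nonneg_left _ (by norm_num)
        have hjm := hH j hj
        refine (UU_le (by omega) hp.2.1.one_lt.le (by omega)).trans ?_
        apply mul_le_mul_of_nonneg_left _ (by positivity)
        have := CH_mono hjm
        linarith
    _ = 2 * H.card * (1 + CH hm / Real.log N) * ∑ p ∈ E, (1:ℝ) / p := by
        rw [Finset.sum_const, nsmul_eq_mul, ← Finset.mul_sum, ← Finset.sum_mul]
        field_simp
    _ ≤ _ := by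
        apply mul_le_mul_of_nonneg_left hEmass
        have := CH_pos hm
        positivity

end Pool.Agent.Lib.P4a7640N
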