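import Mathlib
import Pool.Agent.Lib.P4a7640N.Conc
import Pool.Agent.Lib.P4a7640L.MertensB

/-!
# Conditional means, uniformly in the threshold
-/

open MeasureTheory ProbabilityTheory Filter Topology

namespace Pool.Agent.Lib.P4a7640N

open Pool.Agent.Lib.P4a7640 Pool.Agent.Lib.P4a7640L

/-- the mass of `τ` on the primes in `(T, N]` -/
noncomputable def MS (τ : ℕ → ℝ) (T N : ℕ) : ℝ :=
  ∑ p ∈ (Finset.Ioc T N).filter Nat.Prime, τ p / (p : ℝ)

lemma MS_nonneg {τ : ℕ → ℝ} (hτ : ∀ p, 0 ≤ τ p) (T N : ℕ) : 0 ≤ MS τ T N :=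
  Finset.sum_nonneg fun p _ => div_nonneg (hτ p) (Nat.cast_nonneg p)

/-- the top primes have bounded mass -/
lemma top_mass {ε : ℝ} (hε : 0 < ε) (hε1 : ε < 1) : ∃ C : ℝ, 0 ≤ C ∧ ∀ᶠ N : ℕ in atTop,
    ∑ p ∈ (Finset.Icc 1 N).filter (fun p : ℕ => p.Prime ∧ ε * Real.log N < Real.log p),
      (1:ℝ) / p ≤ C := by
  obtain ⟨C, hC0, hC⟩ := MertensBAux.mertens_nat
  have hlogr : 0 ≤ Real.log (2 / ε) := Real.log_nonneg (by rw [le_div_iff₀ hε]; linarith)
  refine ⟨Real.log (2 / ε) + C, by positivity, ?_⟩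
  have hexp : Tendsto (fun N : ℕ => Real.exp (ε * Real.log N)) atTop atTop :=
    Real.tendsto_exp_atTop.comp (tendsto_logN.const_mul_atTop hε)
  filter_upwards [hexp.eventually_ge_atTop 4, tendsto_logN.eventually_ge_atTop (2 * Real.log 2 / ε),
    tendsto_logN.eventually_ge_atTop (2 / ε), eventually_ge_atTop 1] with N h1 h2 h3 hN1
  have hN0 : (0:ℝ) < N := by exact_mod_cast hN1
  set n := ⌊Real.exp (ε * Real.log N)⌋₊ with hn
  have hnle : (n : ℝ) ≤ Real.exp (ε * Real.log N) := Nat.floor_le (Real.exp_pos _).le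
  have hnlt := Nat.lt_floor_add_one (Real.exp (ε * Real.log N))
  have hn2 : (2:ℝ) ≤ n := by
    rw [← hn] at hnlt
    linarith
  have hnn : 2 ≤ n := by exact_mod_cast hn2
  have hlow : Real.exp (ε * Real.log N) / 2 ≤ n := by
    rw [← hn] at hnlt
    linarith
  have hlogN0 : 0 ≤ Real.log N := Real.log_nonneg (by exact_mod_cast hN1)
  have hnN : n ≤ N := by
    have : (n : ℝ) ≤ N := by
      refine hnle.trans ?_
      calc Real.exp (ε * Real.log N) ≤ Real.exp (Real.log N) := Real.exp_le_exp.mpr (by nlinarith)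
        _ = N := Real.exp_log hN0
    exact_mod_cast this
  have hlogn : ε / 2 * Real.log N ≤ Real.log n := by
    have h4 : Real.log (Real.exp (ε * Real.log N) / 2) ≤ Real.log n :=
      Real.log_le_log (by positivity) hlow
    rw [Real.log_div (Real.exp_pos _).ne' (by norm_num), Real.log_exp] at h4
    have h5 : 2 * Real.log 2 ≤ ε * Real.log N := by
      rw [div_le_iff₀ hε] at h2
      linarith
    linarith
  have hlogn1 : 1 ≤ Real.log n := by
    have h5 : 2 ≤ ε * Real.log N := by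
      rw [div_le_iff₀ hε] at h3
      linarith
    linarith
  have hm := hC n N hnn hnN
  have hlogNpos : 0 < Real.log N := lt_of_lt_of_le (by positivity) h3
  have hll : ll N - ll n ≤ Real.log (2 / ε) := by
    have e1 : ll (N : ℝ) = Real.log (Real.log N) := rfl
    have e2 : ll (n : ℝ) = Real.log (Real.log n) := rfl
    rw [e1, e2]
    have h6 : Real.log (ε / 2 * Real.log N) ≤ Real.log (Real.log n) :=
      Real.log_le_log (by positivity) hlogn
    rw [Real.log_mul (by positivity) hlogNpos.ne'] at h6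
    have h7 : Real.log (ε / 2) = - Real.log (2 / ε) := by
      rw [← Real.log_inv, inv_div]
    rw [h7] at h6
    linarith
  have hCn : C / Real.log n ≤ C := div_le_self hC0.le hlogn1
  have hsum : ∑ p ∈ (Finset.Icc 1 N).filter (fun p : ℕ => p.Prime ∧ ε * Real.log N < Real.log p),
      (1:ℝ) / p ≤ MertensBAux.T N - MertensBAux.T n := by
    rw [MertensBAux.T_sub hnN]
    apply Finset.sum_le_sum_of_subset_of_nonneg
    · intro p hp
      rw [Finset.mem_filter, Finset.mem_Icc] at hp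
      obtain ⟨⟨hp1, hp2⟩, hpp, hp3⟩ := hp
      rw [Finset.mem_filter, Nat.mem_primesLE]
      refine ⟨⟨hp2, hpp⟩, ?_⟩
      have hp0 : (0:ℝ) < p := by exact_mod_cast hpp.pos
      have h8 : Real.exp (ε * Real.log N) < p := by
        rw [← Real.exp_log hp0]
        exact Real.exp_lt_exp.mpr hp3
      have h9 : (n:ℝ) < p := lt_of_le_of_lt hnle h8
      exact_mod_cast h9
    · intro p _ _
      positivity
  have hm2 := (abs_le.mp hm).2
  linarith

/-- primes between `T` and `A T` -/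
lemma mid_mass {A : ℝ} (hA : 0 ≤ A) {T : ℕ} (hT : 1 ≤ T) (N : ℕ) :
    ∑ p ∈ (Finset.Ioc T N).filter (fun p : ℕ => (p:ℝ) ≤ A * T), (1:ℝ) / p ≤ A := by
  have hT0 : (0:ℝ) < T := by exact_mod_cast hT
  calc ∑ p ∈ (Finset.Ioc T N).filter (fun p : ℕ => (p:ℝ) ≤ A * T), (1:ℝ) / p
      ≤ ∑ p ∈ Finset.Icc 1 ⌊A * T⌋₊, (1:ℝ) / T := by
        calc ∑ p ∈ (Finset.Ioc T N).filter (fun p : ℕ => (p:ℝ) ≤ A * T), (1:ℝ) / p
            ≤ ∑ p ∈ (Finset.Ioc T N).filter (fun p : ℕ => (p:ℝ) ≤ A * T), (1:ℝ) / T := by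
              refine Finset.sum_le_sum fun p hp => ?_
              rw [Finset.mem_filter, Finset.mem_Ioc] at hp
              apply one_div_le_one_div_of_le hT0
              exact_mod_cast hp.1.1.le
          _ ≤ _ := by
              apply Finset.sum_le_sum_of_subset_of_nonneg
              · intro p hp
                rw [Finset.mem_filter, Finset.mem_Ioc] at hp
                rw [Finset.mem_Icc]
                exact ⟨by omega, Nat.le_floor hp.2⟩
              · intro _ _ _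
                positivity
    _ = ⌊A * T⌋₊ * (1 / T) := by rw [Finset.sum_const, Nat.card_Icc, nsmul_eq_mul]; simp
    _ ≤ (A * T) * (1 / T) := by
        apply mul_le_mul_of_nonneg_right _ (by positivity)
        exact Nat.floor_le (by positivity)
    _ = A := by field_simp

/-- uniform smallness of the conditional means -/
lemma exists_mean (H : Finset ℕ) (hne : H.Nonempty) {hm : ℕ} (hH : ∀ h ∈ H, h ≤ hm) {A η : ℝ}
    (hA : 1 ≤ A) (hη : 0 < η) :
    ∃ V₀ : ℝ, ∀ᶠ N : ℕ in atTop, ∀ θ : ℕ → ℝ, (∀ p, 0 ≤ θ p) → (∀ p, θ p ≤ 1) →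
      ∀ T : ℕ, 2 * hm + 1 ≤ T → V₀ ≤ MS (fun p => min (θ p) (1 - θ p)) T N →
      ∀ w : ℕ → ℝ, (∀ n, |w n| ≤ 1) → ∀ x : SS,
        |AVL θ (PL hm N (A * T)).toList (FF w H N) x| ≤ η := by
  obtain ⟨h₀, hh₀⟩ := hne
  set ε := min (η / 32) (1/2) with hε
  have hε0 : 0 < ε := lt_min (by positivity) (by norm_num)
  have hε1 : ε < 1 := lt_of_le_of_lt (min_le_right _ _) (by norm_num)
  obtain ⟨C, hC0, hC⟩ := top_mass hε0 hε1
  -- the needed variance
  obtain ⟨V₁, hV₁, hexp⟩ : ∃ V₁ : ℝ, 1 ≤ V₁ ∧ ∀ V, V₁ ≤ V → 40 / V ≤ η / 8 ∧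
      Real.exp (-V) * 2 ≤ η / 8 := by
    have h1 : Tendsto (fun V : ℝ => 40 / V) atTop (𝓝 0) := tendsto_id.const_div_atTop 40
    have h2 : Tendsto (fun V : ℝ => Real.exp (-V) * 2) atTop (𝓝 0) := by
      simpa using Real.tendsto_exp_neg_atTop_nhds_zero.mul_const 2
    have h3 := ((h1.eventually (eventually_le_nhds (show 0 < η / 8 by positivity))).and
      (h2.eventually (eventually_le_nhds (show 0 < η / 8 by positivity)))).and
      (eventually_ge_atTop (1:ℝ))
    obtain ⟨V₁, hV₁⟩ := eventually_atTop.mp h3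
    refine ⟨max V₁ 1, le_max_right _ _, fun V hV => ?_⟩
    exact (hV₁ V ((le_max_left _ _).trans hV)).1
  refine ⟨V₁ + A + C, ?_⟩
  have h4 : Tendsto (fun N : ℕ => 4 * (CH h₀ + 1) / Real.log N) atTop (𝓝 0) :=
    tendsto_logN.const_div_atTop _
  have h5 : Tendsto (fun N : ℕ => CH h₀ / Real.log N) atTop (𝓝 0) := tendsto_logN.const_div_atTop _
  filter_upwards [hC, eventually_ge_atTop 2, h4.eventually (eventually_le_nhds
    (show 0 < η / 8 by positivity)), h5.eventually (eventually_le_nhds (show (0:ℝ) < 1 by norm_num)),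
    tendsto_logN.eventually_ge_atTop 1] with N hCN hN2 hl1 hl2 hl3 θ hθ0 hθ1 T hT hV w hw x
  set τ : ℕ → ℝ := fun p => min (θ p) (1 - θ p) with hτd
  have hτ : ∀ p, 0 ≤ τ p := fun p => le_min (hθ0 p) (by linarith [hθ1 p])
  have hτ1 : ∀ p, τ p ≤ 1 := fun p => (min_le_left _ _).trans (hθ1 p)
  set s := TF (A * T) ε N with hs
  have hTr : 2 * (hm:ℝ) + 1 ≤ T := by exact_mod_cast hT
  have hAT : (T:ℝ) ≤ A * T := le_mul_of_one_le_left (Nat.cast_nonneg T) hA
  have hVs : V₁ ≤ VV s τ := by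
    have h6 : MS τ T N ≤ VV s τ + (∑ p ∈ (Finset.Ioc T N).filter (fun p : ℕ => (p:ℝ) ≤ A * T),
        (1:ℝ) / p + ∑ p ∈ (Finset.Icc 1 N).filter
        (fun p : ℕ => p.Prime ∧ ε * Real.log N < Real.log p), (1:ℝ) / p) := by
      classical
      have hsub : (Finset.Ioc T N).filter Nat.Prime ⊆ s ∪
          ((Finset.Ioc T N).filter (fun p : ℕ => (p:ℝ) ≤ A * T) ∪ (Finset.Icc 1 N).filter
            (fun p : ℕ => p.Prime ∧ ε * Real.log N < Real.log p)) := by
        intro p hp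
        rw [Finset.mem_filter, Finset.mem_Ioc] at hp
        obtain ⟨⟨hp1, hp2⟩, hpp⟩ := hp
        rw [Finset.mem_union, Finset.mem_union, hs, TF]
        simp only [Finset.mem_filter, Finset.mem_Icc, Finset.mem_Ioc]
        by_cases h7 : (p:ℝ) ≤ A * T
        · exact Or.inr (Or.inl ⟨⟨hp1, hp2⟩, h7⟩)
        · by_cases h8 : ε * Real.log N < Real.log p
          · exact Or.inr (Or.inr ⟨⟨by omega, hp2⟩, hpp, h8⟩)
          · push Not at h7 h8
            exact Or.inl ⟨⟨by omega, hp2⟩, hpp, h7, h8⟩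
      have hunion : ∀ (a b : Finset ℕ) (f : ℕ → ℝ), (∀ p, 0 ≤ f p) →
          ∑ p ∈ a ∪ b, f p ≤ ∑ p ∈ a, f p + ∑ p ∈ b, f p := by
        intro a b f hf
        rw [← Finset.sum_union_inter]
        have := Finset.sum_nonneg (s := a ∩ b) (fun p _ => hf p)
        linarith
      have hf0 : ∀ p : ℕ, 0 ≤ τ p / (p:ℝ) := fun p => div_nonneg (hτ p) (Nat.cast_nonneg p)
      have hle : ∀ (a : Finset ℕ), ∑ p ∈ a, τ p / (p:ℝ) ≤ ∑ p ∈ a, (1:ℝ) / p := fun a =>
        Finset.sum_le_sum fun p _ => div_le_div_of_nonneg_right (hτ1 p) (Nat.cast_nonneg p)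
      calc MS τ T N ≤ ∑ p ∈ s ∪ ((Finset.Ioc T N).filter (fun p : ℕ => (p:ℝ) ≤ A * T) ∪
            (Finset.Icc 1 N).filter (fun p : ℕ => p.Prime ∧ ε * Real.log N < Real.log p)),
            τ p / (p:ℝ) := Finset.sum_le_sum_of_subset_of_nonneg hsub fun p _ _ => hf0 p
        _ ≤ _ := (hunion _ _ _ hf0).trans
            (add_le_add le_rfl ((hunion _ _ _ hf0).trans (add_le_add (hle _) (hle _))))
    have h9 := mid_mass (A := A) (by linarith) (T := T) (by omega) N
    linarith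
  have hVpos : 0 < VV s τ := by linarith
  obtain ⟨he1, he2⟩ := hexp _ hVs
  refine (AVL_FF_le hθ0 hθ1 hw hN2 hh₀ hH (s := s) ?_ x).trans ?_
  · intro p hp
    rw [hs, TF, Finset.mem_filter, Finset.mem_Icc] at hp
    obtain ⟨⟨hp1, hp2⟩, hpp, hp3, hp4⟩ := hp
    constructor
    · unfold PL
      rw [Finset.mem_filter, Finset.mem_Icc]
      exact ⟨⟨hp1, by omega⟩, hpp, hp3⟩
    · have h10 : (hm:ℝ) < p := by
        have : (0:ℝ) ≤ hm := Nat.cast_nonneg hm
        linarith
      exact_mod_cast h10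
  · refine (exp_avg (ε := ε) hτ hτ1 hN2 hVpos ?_).trans ?_
    · intro p hp
      rw [hs, TF, Finset.mem_filter, Finset.mem_Icc] at hp
      obtain ⟨⟨hp1, hp2⟩, hpp, hp3, hp4⟩ := hp
      have h11 : 2 * (hm:ℝ) + 1 < p := by linarith
      have h12 : 2 * hm + 1 < p := by exact_mod_cast h11
      have h13 := hH h₀ hh₀
      exact ⟨hpp, by omega, by omega, hp2, hp4⟩
    · have h14 : ε ≤ η / 32 := min_le_left _ _
      have hlpos : 0 < Real.log N := by linarith
      have h15 : 20 * (1 + CH h₀ / Real.log N) / VV s τ ≤ η / 8 := by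
        refine le_trans ?_ he1
        apply div_le_div_of_nonneg_right _ hVpos.le
        linarith
      have h16 : Real.exp (-VV s τ) * (1 + 1 / Real.log N) ≤ η / 8 := by
        refine le_trans ?_ he2
        apply mul_le_mul_of_nonneg_left _ (Real.exp_pos _).le
        have : 1 / Real.log N ≤ 1 := by
          rw [div_le_one hlpos]
          exact hl3
        linarith
      linarith

end Pool.Agent.Lib.P4a7640N
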