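import Mathlib
import Pool.Agent.Lib.P4a7640N.Mean
import Pool.Agent.Lib.P4a7640N.Compare

/-!
# Almost sure vanishing of correlations for all nearby multiplicative functions
-/

open MeasureTheory ProbabilityTheory Filter Topology
open scoped ENNReal

namespace Pool.Agent.Lib.P4a7640N

open Pool.Agent.Lib.P4a7640

/-- the criterion: at every large scale `N` there is a threshold `T ≥ log log log N` above which
the signs `x` have large variance while `y` hardly differs from `x` -/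
def Crit (τ : ℕ → ℝ) (y x : SS) : Prop :=
  ∀ V : ℝ, ∀ δ : ℝ, 0 < δ → ∀ᶠ N : ℕ in atTop, ∃ T : ℕ,
    l3 N ≤ T ∧ V ≤ MS τ T N ∧ ES y x T N ≤ δ

variable {ν : ℕ → Measure ℤˣ} [∀ p, IsProbabilityMeasure (ν p)]

/-- the exceptional event at stage `k` -/
def devK (θ : ℕ → ℝ) (H : Finset ℕ) (η : ℝ) (k : ℕ) : Set SS :=
  devU θ H (NK k) (H.sup id) (AK H.card η) η ⌈2 * l3 (NK k)⌉₊ (2 * NK k)

lemma ae_dev {θ : ℕ → ℝ} (hθ : ∀ p, θ p = (ν p).real {-1}) {H : Finset ℕ} (hne : H.Nonempty)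
    {η : ℝ} (hη : 0 < η) :
    ∀ᵐ x ∂(Measure.infinitePi ν), ∀ᶠ k : ℕ in atTop, x ∉ devK θ H η k := by
  set hm := H.sup id with hmd
  have hH : ∀ h ∈ H, h ≤ hm := fun h hh => Finset.le_sup (f := id) hh
  have hc0 : (0:ℝ) < H.card := by exact_mod_cast hne.card_pos
  have hA0 : 0 < AK H.card η := by unfold AK; positivity
  have hbound : ∀ᶠ k : ℕ in atTop, ‖(Measure.infinitePi ν).real (devK θ H η k)‖ ≤
      4 * (1 / (k:ℝ)^2) := by
    have hy : Tendsto (fun k : ℕ => AK H.card η * (2 * l3 (NK k))) atTop atTop :=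
      ((tendsto_l3.comp tendsto_NK).const_mul_atTop two_pos).const_mul_atTop hA0
    have hlog : Tendsto (fun k : ℕ => Real.log (NK k)) atTop atTop := tendsto_logN.comp tendsto_NK
    filter_upwards [hy.eventually_ge_atTop (2 * hm + 1), hlog.eventually_ge_atTop (CH hm),
      tendsto_NK.eventually_ge_atTop 2, eventually_ge_atTop 1] with k h1 h2 h3 h4
    rw [Real.norm_of_nonneg measureReal_nonneg]
    have hm0 : (0:ℝ) ≤ hm := Nat.cast_nonneg hm
    have h0 : 2 * l3 (NK k) ≤ (⌈2 * l3 (NK k)⌉₊ : ℝ) := Nat.le_ceil _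
    have h5 : AK H.card η * (2 * l3 (NK k)) ≤ AK H.card η * (⌈2 * l3 (NK k)⌉₊ : ℝ) :=
      mul_le_mul_of_nonneg_left h0 hA0.le
    refine (devU_le hθ hne h3 hH h2 hη (by linarith) (by linarith)).trans ?_
    apply mul_le_mul_of_nonneg_left _ (by norm_num)
    have hk0 : (0:ℝ) < k := by exact_mod_cast h4
    have h6 : Real.log k / 2 ≤ l3 (NK k) := half_log_le_l3_NK h4
    have h7 : 1 / (k:ℝ)^2 = Real.exp (-(2 * Real.log k)) := by
      rw [Real.exp_neg, ← Real.log_rpow hk0, Real.exp_log (by positivity)]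
      norm_num
    rw [h7]
    apply Real.exp_le_exp.mpr
    rw [neg_le_neg_iff]
    linarith
  have hsum : Summable fun k => (Measure.infinitePi ν).real (devK θ H η k) :=
    Summable.of_norm_bounded_eventually_nat ((Real.summable_one_div_nat_pow.mpr
      (by norm_num : 1 < 2)).mul_left 4) hbound
  have hne_top : ∑' k, (Measure.infinitePi ν) (devK θ H η k) ≠ ∞ := by
    have h1 := hsum.tsum_ofReal_ne_top
    have h2 : (fun k => ENNReal.ofReal ((Measure.infinitePi ν).real (devK θ H η k))) =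
        fun k => (Measure.infinitePi ν) (devK θ H η k) := by
      funext k
      exact ofReal_measureReal
    rwa [h2] at h1
  exact ae_eventually_notMem hne_top

lemma MS_double {τ : ℕ → ℝ} (hτ : ∀ p, 0 ≤ τ p) (hτ1 : ∀ p, τ p ≤ 1) {T : ℕ} (hT : 1 ≤ T) (N : ℕ) :
    MS τ T N ≤ MS τ (2 * T) N + 2 := by
  have hsub : (Finset.Ioc T N).filter Nat.Prime ⊆ (Finset.Ioc (2 * T) N).filter Nat.Prime ∪
      (Finset.Ioc T N).filter (fun p : ℕ => (p:ℝ) ≤ 2 * T) := by
    intro p hp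
    rw [Finset.mem_filter, Finset.mem_Ioc] at hp
    rw [Finset.mem_union, Finset.mem_filter, Finset.mem_filter, Finset.mem_Ioc, Finset.mem_Ioc]
    rcases Nat.lt_or_ge (2 * T) p with h | h
    · exact Or.inl ⟨⟨h, hp.1.2⟩, hp.2⟩
    · right
      exact ⟨hp.1, by exact_mod_cast h⟩
  have hf0 : ∀ p : ℕ, 0 ≤ τ p / (p:ℝ) := fun p => div_nonneg (hτ p) (Nat.cast_nonneg p)
  calc MS τ T N ≤ ∑ p ∈ (Finset.Ioc (2 * T) N).filter Nat.Prime ∪
        (Finset.Ioc T N).filter (fun p : ℕ => (p:ℝ) ≤ 2 * T), τ p / (p:ℝ) :=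
        Finset.sum_le_sum_of_subset_of_nonneg hsub fun p _ _ => hf0 p
    _ ≤ MS τ (2 * T) N + ∑ p ∈ (Finset.Ioc T N).filter (fun p : ℕ => (p:ℝ) ≤ 2 * T),
        τ p / (p:ℝ) := by
        unfold MS
        rw [← Finset.sum_union_inter]
        have : 0 ≤ ∑ p ∈ (Finset.Ioc (2 * T) N).filter Nat.Prime ∩
          (Finset.Ioc T N).filter (fun p : ℕ => (p:ℝ) ≤ 2 * T), τ p / (p:ℝ) :=
          Finset.sum_nonneg fun p _ => hf0 p
        linarith
    _ ≤ MS τ (2 * T) N + 2 := by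
        apply add_le_add le_rfl
        refine le_trans (Finset.sum_le_sum fun p _ =>
          div_le_div_of_nonneg_right (hτ1 p) (Nat.cast_nonneg p)) ?_
        exact mid_mass (A := 2) (by norm_num) hT N

lemma ES_anti (y x : SS) {S T : ℕ} (h : S ≤ T) (N : ℕ) : ES y x T N ≤ ES y x S N := by
  apply Finset.sum_le_sum_of_subset_of_nonneg
  · intro p hp
    rw [Finset.mem_filter, Finset.mem_Ioc] at hp ⊢
    exact ⟨⟨by omega, hp.1.2⟩, hp.2⟩
  · intro _ _ _
    positivity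

/-- the deterministic core -/
lemma eventually_small {θ : ℕ → ℝ} (hθ0 : ∀ p, 0 ≤ θ p) (hθ1 : ∀ p, θ p ≤ 1) {H : Finset ℕ}
    (hne : H.Nonempty) {η : ℝ} (hη : 0 < η) (hη1 : η ≤ 1) {x : SS}
    (hx : ∀ᶠ k : ℕ in atTop, x ∉ devK θ H η k) {y : SS}
    (hc : Crit (fun p => min (θ p) (1 - θ p)) y x) :
    ∀ᶠ k : ℕ in atTop, |LA (prodSeq (rnd y) H) (NK k)| ≤ 3 * η := by
  set τ : ℕ → ℝ := fun p => min (θ p) (1 - θ p) with hτd
  have hτ : ∀ p, 0 ≤ τ p := fun p => le_min (hθ0 p) (by linarith [hθ1 p])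
  have hτ1 : ∀ p, τ p ≤ 1 := fun p => (min_le_left _ _).trans (hθ1 p)
  set hm := H.sup id with hmd
  have hH : ∀ h ∈ H, h ≤ hm := fun h hh => Finset.le_sup (f := id) hh
  have hc1 : (1:ℝ) ≤ H.card := by exact_mod_cast hne.card_pos
  have hA1 : 1 ≤ AK H.card η := by
    unfold AK
    rw [le_div_iff₀ (by positivity)]
    nlinarith
  obtain ⟨V₀, hV₀⟩ := exists_mean H hne hH hA1 hη
  have hδ0 : 0 < η / (8 * H.card) := by positivity
  have hcN := hc (max V₀ 1 + 2) (η / (8 * H.card)) hδ0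
  have h1 : Tendsto (fun N : ℕ => CH hm / Real.log N) atTop (𝓝 0) := tendsto_logN.const_div_atTop _
  have h2 : Tendsto (fun N : ℕ => (hm:ℝ) / N) atTop (𝓝 0) :=
    tendsto_natCast_atTop_atTop.const_div_atTop _
  have hev : ∀ᶠ N : ℕ in atTop, (∃ T : ℕ, l3 N ≤ T ∧ max V₀ 1 + 2 ≤ MS τ T N ∧
      ES y x T N ≤ η / (8 * H.card)) ∧ (∀ T : ℕ, 2 * hm + 1 ≤ T → V₀ ≤ MS τ T N →
      ∀ w : ℕ → ℝ, (∀ n, |w n| ≤ 1) → ∀ x : SS,
        |AVL θ (PL hm N (AK H.card η * T)).toList (FF w H N) x| ≤ η) ∧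
      CH hm / Real.log N ≤ 1 ∧ (hm:ℝ) / N ≤ η / (8 * H.card) ∧ 2 ≤ N ∧
      2 * (hm:ℝ) + 1 ≤ l3 N := by
    filter_upwards [hcN, hV₀, h1.eventually (eventually_le_nhds one_pos),
      h2.eventually (eventually_le_nhds hδ0), eventually_ge_atTop 2,
      tendsto_l3.eventually_ge_atTop (2 * hm + 1)] with N a1 a2 a3 a4 a5 a6
    exact ⟨a1, a2 θ hθ0 hθ1, a3, a4, a5, a6⟩
  filter_upwards [hx, tendsto_NK.eventually hev] with k hxk hk
  obtain ⟨⟨T, hT1, hT2, hT3⟩, hmean, hl, hmN, hN2, hl3⟩ := hk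
  set N := NK k with hN
  have hTr : 2 * (hm:ℝ) + 1 ≤ T := hl3.trans hT1
  have hTn : 2 * hm + 1 ≤ T := by exact_mod_cast hTr
  have hTN : T ≤ N := by
    by_contra hcon
    push Not at hcon
    have h3 : MS τ T N = 0 := by
      unfold MS
      rw [Finset.Ioc_eq_empty (by omega)]
      simp
    have h4 : (1:ℝ) ≤ max V₀ 1 := le_max_right _ _
    linarith
  have hMS := MS_double hτ hτ1 (T := T) (by omega) N
  have hV : V₀ ≤ MS τ (2 * T) N := by
    have : V₀ ≤ max V₀ 1 := le_max_left _ _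
    linarith
  have hcast : ((2 * T : ℕ) : ℝ) = 2 * (T:ℝ) := by push_cast; ring
  have hceil : ⌈2 * l3 N⌉₊ ≤ 2 * T := by
    apply Nat.ceil_le.mpr
    rw [hcast]
    linarith
  set D := DS y x (2 * T) with hD
  have hw : ∀ n, |prodSeq (rnd (sD D)) H n| ≤ 1 := fun n => (abs_prodSeq _ H n).le
  have hmean' := hmean (2 * T) (by omega) hV (prodSeq (rnd (sD D)) H) hw x
  have hdev : |FF (prodSeq (rnd (sD D)) H) H N x -
      AVL θ (PL hm N (AK H.card η * (2 * T : ℕ))).toList (FF (prodSeq (rnd (sD D)) H) H N) x| < η := by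
    by_contra hcon
    push Not at hcon
    apply hxk
    unfold devK devU
    rw [Set.mem_iUnion₂]
    refine ⟨2 * T, ?_, ?_⟩
    · rw [Finset.mem_Icc]
      exact ⟨hceil, by omega⟩
    · rw [Set.mem_iUnion₂]
      refine ⟨D, ?_, hcon⟩
      rw [Finset.mem_powerset, hD]
      exact Finset.filter_subset _ _
  have hcmp := compare y x (T := 2 * T) hH hN2 (by omega)
  have hES : ES y x (2 * T) N ≤ η / (8 * H.card) := (ES_anti y x (by omega) N).trans hT3
  have hbound : 2 * (H.card:ℝ) * (1 + CH hm / Real.log N) * (ES y x (2 * T) N + hm / N) ≤ η := by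
    have h5 : 0 ≤ ES y x (2 * T) N := ES_nonneg _ _ _ _
    have h6 : 0 ≤ (hm:ℝ) / N := by positivity
    have h7 : 0 ≤ 1 + CH hm / Real.log N := by
      have := CH_pos hm
      have : 0 ≤ Real.log N := Real.log_natCast_nonneg N
      positivity
    calc 2 * (H.card:ℝ) * (1 + CH hm / Real.log N) * (ES y x (2 * T) N + hm / N)
        ≤ 2 * (H.card:ℝ) * 2 * (η / (8 * H.card) + η / (8 * H.card)) := by
          apply mul_le_mul _ (by linarith) (by linarith) (by positivity)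
          apply mul_le_mul_of_nonneg_left (by linarith) (by positivity)
      _ = η := by field_simp; norm_num
  have e1 := abs_le.mp (hcmp.trans hbound)
  have e2 := abs_lt.mp hdev
  have e3 := abs_le.mp hmean'
  rw [abs_le]
  constructor <;> linarith [e1.1, e1.2, e2.1, e2.2, e3.1, e3.2]

/-- almost surely, all nearby completely multiplicative functions have vanishing correlations -/
theorem ae_all {θ : ℕ → ℝ} (hθ : ∀ p, θ p = (ν p).real {-1}) :
    ∀ᵐ x ∂(Measure.infinitePi ν), ∀ y : SS, Crit (fun p => min (θ p) (1 - θ p)) y x →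
      ∀ H : Finset ℕ, H.Nonempty → Tendsto (LA (prodSeq (rnd y) H)) atTop (𝓝 0) := by
  have hθ0 : ∀ p, 0 ≤ θ p := fun p => by rw [hθ]; exact measureReal_nonneg
  have hθ1 : ∀ p, θ p ≤ 1 := fun p => by rw [hθ]; exact measureReal_le_one
  have h1 : ∀ᵐ x ∂(Measure.infinitePi ν), ∀ H : Finset ℕ, ∀ j : ℕ, H.Nonempty →
      ∀ᶠ k : ℕ in atTop, x ∉ devK θ H (1 / ((j:ℝ) + 1)) k := by
    rw [ae_all_iff]
    intro H
    rw [ae_all_iff]
    intro j
    by_cases hne : H.Nonempty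
    · filter_upwards [ae_dev hθ hne (η := 1 / ((j:ℝ) + 1)) (by positivity)] with x hx _
      exact hx
    · exact Eventually.of_forall fun x hx => absurd hx hne
  filter_upwards [h1] with x hx y hy H hne
  apply interp fun n => (abs_prodSeq _ H n).le
  rw [Metric.tendsto_atTop]
  intro ε hε
  obtain ⟨j, hj⟩ := exists_nat_one_div_lt (show 0 < ε / 4 by positivity)
  have hj1 : 1 / ((j:ℝ) + 1) ≤ 1 := by
    rw [div_le_one (by positivity)]
    have : (0:ℝ) ≤ j := Nat.cast_nonneg j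
    linarith
  have h2 := eventually_small hθ0 hθ1 hne (η := 1 / ((j:ℝ) + 1)) (by positivity) hj1 (hx H j hne) hy
  obtain ⟨k0, hk0⟩ := eventually_atTop.mp h2
  refine ⟨k0, fun k hk => ?_⟩
  rw [dist_zero_right, Real.norm_eq_abs]
  have := hk0 k hk
  linarith

end Pool.Agent.Lib.P4a7640N
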