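import Mathlib
import Pool.Agent.Lib.P4a7640N.Ae

/-!
# The criterion for functions in the slow class
-/

open MeasureTheory ProbabilityTheory Filter Topology

namespace Pool.Agent.Lib.P4a7640N

open Pool.Agent.Lib.P4a7640

/-- iterated integer square roots -/
def rt (j N : ℕ) : ℕ := Nat.sqrt^[j] N

lemma rt_zero (N : ℕ) : rt 0 N = N := rfl

lemma rt_succ (j N : ℕ) : rt (j + 1) N = Nat.sqrt (rt j N) := Function.iterate_succ_apply' _ _ _

lemma rt_add (i j N : ℕ) : rt (i + j) N = rt i (rt j N) := Function.iterate_add_apply _ _ _ _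

lemma rt_lt_iff (j : ℕ) : ∀ N p : ℕ, rt j N < p ↔ N < p ^ (2 ^ j) := by
  induction j with
  | zero => intro N p; simp [rt_zero]
  | succ j ih =>
    intro N p
    rw [rt_succ, Nat.sqrt_lt', ih, ← pow_mul, ← pow_succ']

lemma rt_succ_le (j N : ℕ) : rt (j + 1) N ≤ rt j N := by
  rw [rt_succ]
  exact Nat.sqrt_le_self _

lemma rt_anti (N : ℕ) : Antitone fun j => rt j N := antitone_nat_of_succ_le fun j => rt_succ_le j N

lemma rt_le (j N : ℕ) : rt j N ≤ N := rt_anti N (Nat.zero_le j)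

lemma tendsto_sqrt : Tendsto Nat.sqrt atTop atTop := by
  rw [tendsto_atTop]
  intro b
  filter_upwards [eventually_ge_atTop (b * b)] with N hN
  exact Nat.le_sqrt.mpr hN

lemma tendsto_rt (j : ℕ) : Tendsto (rt j) atTop atTop := by
  induction j with
  | zero => exact tendsto_id
  | succ j ih =>
    have : rt (j + 1) = Nat.sqrt ∘ rt j := funext fun N => rt_succ j N
    rw [this]
    exact tendsto_sqrt.comp ih

lemma l3_le_rt (j : ℕ) : ∀ᶠ N : ℕ in atTop, l3 N ≤ rt j N := by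
  have h1 : ∀ᶠ x : ℝ in atTop, Real.log x + (j * Real.log 2 + 1) ≤ x := by
    have h2 := (Real.isLittleO_log_id_atTop).bound (show (0:ℝ) < 1 / 2 by norm_num)
    filter_upwards [h2, eventually_ge_atTop (2 * (j * Real.log 2 + 1)), eventually_ge_atTop 1]
      with x h3 h4 h5
    simp only [id, Real.norm_eq_abs] at h3
    rw [abs_of_nonneg (Real.log_nonneg h5), abs_of_nonneg (by linarith)] at h3
    linarith
  have hr : Tendsto (fun N : ℕ => ((rt j N : ℕ) : ℝ)) atTop atTop :=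
    tendsto_natCast_atTop_atTop.comp (tendsto_rt j)
  filter_upwards [hr.eventually h1, hr.eventually_ge_atTop 1, tendsto_logN.eventually_ge_atTop 3,
    eventually_ge_atTop 2] with N h2 h3 h4 h5
  have hN0 : (0:ℝ) < N := by exact_mod_cast (by omega : 0 < N)
  have h6 : N < (rt j N + 1) ^ (2 ^ j) := (rt_lt_iff j N _).mp (Nat.lt_succ_self _)
  have h7 : (N:ℝ) < ((rt j N : ℝ) + 1) ^ (2 ^ j) := by exact_mod_cast h6
  have h8 : Real.log N ≤ 2 ^ j * Real.log ((rt j N : ℝ) + 1) := by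
    have := Real.log_le_log hN0 h7.le
    rw [Real.log_pow] at this
    push_cast at this
    exact this
  have h9 : Real.log ((rt j N : ℝ) + 1) ≤ rt j N := by
    have := Real.log_le_sub_one_of_pos (show 0 < (rt j N : ℝ) + 1 by linarith)
    linarith
  have h10 : Real.log N ≤ 2 ^ j * (rt j N : ℝ) :=
    h8.trans (mul_le_mul_of_nonneg_left h9 (by positivity))
  have h11 : Real.log (Real.log N) ≤ j * Real.log 2 + Real.log (rt j N) := by
    have := Real.log_le_log (by linarith) h10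
    rw [Real.log_mul (by positivity) (by linarith), Real.log_pow] at this
    exact this
  have h12 : l3 N ≤ Real.log (Real.log N) := by
    unfold l3
    have h13 : 0 < Real.log (Real.log N) := Real.log_pos (by linarith)
    exact (Real.log_le_sub_one_of_pos h13).trans (by linarith)
  linarith

lemma MS_add (τ : ℕ → ℝ) {a b c : ℕ} (hab : a ≤ b) (hbc : b ≤ c) :
    MS τ a b + MS τ b c = MS τ a c := by
  unfold MS
  rw [← Finset.sum_union]
  · congr 1
    rw [← Finset.filter_union, Finset.Ioc_union_Ioc_eq_Ioc hab hbc]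
  · rw [Finset.disjoint_left]
    intro p hp hp'
    rw [Finset.mem_filter, Finset.mem_Ioc] at hp hp'
    omega

lemma ES_add (y x : SS) {a b c : ℕ} (hab : a ≤ b) (hbc : b ≤ c) :
    ES y x a b + ES y x b c = ES y x a c := by
  unfold ES
  rw [← Finset.sum_union]
  · congr 1
    rw [← Finset.filter_union, Finset.Ioc_union_Ioc_eq_Ioc hab hbc]
  · rw [Finset.disjoint_left]
    intro p hp hp'
    rw [Finset.mem_filter, Finset.mem_Ioc] at hp hp'
    omega

lemma MS_window (τ : ℕ → ℝ) (j N : ℕ) : MS τ (rt j N) N =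
    ∑ p ∈ (Finset.Icc 1 N).filter (fun p : ℕ => p.Prime ∧ N < p ^ (2 ^ j)), τ p / (p:ℝ) := by
  unfold MS
  refine Finset.sum_congr ?_ fun _ _ => rfl
  ext p
  rw [Finset.mem_filter, Finset.mem_filter, Finset.mem_Ioc, Finset.mem_Icc, rt_lt_iff]
  constructor
  · rintro ⟨⟨h1, h2⟩, h3⟩
    exact ⟨⟨h3.one_lt.le, h2⟩, h3, h1⟩
  · rintro ⟨⟨h1, h2⟩, h3, h4⟩
    exact ⟨⟨h4, h2⟩, h3⟩

lemma ES_window (y x : SS) (N : ℕ) : ES y x (rt 1 N) N =
    ∑ p ∈ (Finset.Icc 1 N).filter (fun p : ℕ => p.Prime ∧ N < p ^ 2 ∧ y p ≠ x p), (1:ℝ) / p := by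
  unfold ES
  refine Finset.sum_congr ?_ fun _ _ => rfl
  ext p
  rw [Finset.mem_filter, Finset.mem_filter, Finset.mem_Ioc, Finset.mem_Icc, rt_lt_iff, pow_one]
  constructor
  · rintro ⟨⟨h1, h2⟩, h3, h4⟩
    exact ⟨⟨h3.one_lt.le, h2⟩, h3, h1, h4⟩
  · rintro ⟨⟨h1, h2⟩, h3, h4, h5⟩
    exact ⟨⟨h4, h2⟩, h3, h5⟩

/-- many windows carry much variance -/
lemma MS_many {τ : ℕ → ℝ} {i : ℕ} {c : ℝ} {N₀ : ℕ} (h : ∀ M ≥ N₀, c ≤ MS τ (rt i M) M) (N : ℕ) :
    ∀ J : ℕ, N₀ ≤ rt (J * i) N → J * c ≤ MS τ (rt (J * i) N) N := by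
  intro J
  induction J with
  | zero => intro _; simp [rt_zero, MS]
  | succ J ih =>
    intro hJ
    have h1 : rt ((J + 1) * i) N = rt i (rt (J * i) N) := by
      rw [← rt_add]
      congr 1
      ring
    have h2 : rt i (rt (J * i) N) ≤ rt (J * i) N := rt_le _ _
    have h3 : N₀ ≤ rt (J * i) N := by
      rw [h1] at hJ
      omega
    have h4 := ih h3
    have h5 := h _ h3
    rw [h1, ← MS_add τ h2 (rt_le _ _)]
    push_cast
    linarith

/-- finitely many windows carry few changes -/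
lemma ES_many {y x : SS} {δ : ℝ} {N₀ : ℕ} (h : ∀ M ≥ N₀, ES y x (rt 1 M) M ≤ δ) (N : ℕ) :
    ∀ J : ℕ, N₀ ≤ rt J N → ES y x (rt J N) N ≤ J * δ := by
  intro J
  induction J with
  | zero => intro _; simp [rt_zero, ES]
  | succ J ih =>
    intro hJ
    have h1 : rt (J + 1) N = rt 1 (rt J N) := by rw [← rt_add, add_comm]
    have h2 : rt 1 (rt J N) ≤ rt J N := rt_le _ _
    have h3 : N₀ ≤ rt J N := by
      rw [h1] at hJ
      omega
    have h4 := ih h3
    have h5 := h _ h3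
    rw [h1, ← ES_add y x h2 (rt_le _ _)]
    push_cast
    linarith

/-- the criterion holds in the slow class -/
lemma crit_of_slow {τ : ℕ → ℝ} (hτ : ∀ p, 0 ≤ τ p) {k : ℕ} {c : ℝ} (hc : 0 < c)
    (hk : ∀ᶠ N : ℕ in atTop, c ≤ ∑ p ∈ (Finset.Icc 1 N).filter
      (fun p : ℕ => p.Prime ∧ N < p ^ k), τ p / (p : ℝ)) {y x : SS}
    (hyx : Tendsto (fun N : ℕ => ∑ p ∈ (Finset.Icc 1 N).filter
      (fun p : ℕ => p.Prime ∧ N < p ^ 2 ∧ y p ≠ x p), (1:ℝ) / p) atTop (𝓝 0)) :
    Crit τ y x := by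
  intro V δ hδ
  obtain ⟨N₁, hN₁⟩ := eventually_atTop.mp hk
  have h1 : ∀ M ≥ N₁, c ≤ MS τ (rt k M) M := by
    intro M hM
    refine (hN₁ M hM).trans ?_
    rw [MS_window]
    apply Finset.sum_le_sum_of_subset_of_nonneg
    · intro p hp
      rw [Finset.mem_filter] at hp ⊢
      refine ⟨hp.1, hp.2.1, lt_of_lt_of_le hp.2.2 ?_⟩
      exact Nat.pow_le_pow_right hp.2.1.pos (Nat.lt_two_pow_self).le
    · intro p _ _
      exact div_nonneg (hτ p) (Nat.cast_nonneg p)
  obtain ⟨J, hJ⟩ := exists_nat_ge (V / c)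
  have hJV : V ≤ J * c := by
    rw [div_le_iff₀ hc] at hJ
    exact hJ
  have hδ' : 0 < δ / ((J * k : ℕ) + 1) := by positivity
  have h2 : ∀ᶠ M : ℕ in atTop, ES y x (rt 1 M) M ≤ δ / ((J * k : ℕ) + 1) := by
    filter_upwards [hyx.eventually (eventually_le_nhds hδ')] with M hM
    rw [ES_window]
    exact hM
  obtain ⟨N₂, hN₂⟩ := eventually_atTop.mp h2
  filter_upwards [l3_le_rt (J * k), (tendsto_rt (J * k)).eventually_ge_atTop (max N₁ N₂)]
    with N h3 h4
  refine ⟨rt (J * k) N, h3, ?_, ?_⟩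
  · exact hJV.trans (MS_many h1 N J ((le_max_left _ _).trans h4))
  · refine (ES_many hN₂ N (J * k) ((le_max_right _ _).trans h4)).trans ?_
    rw [← mul_div_assoc, div_le_iff₀ (by positivity)]
    nlinarith

end Pool.Agent.Lib.P4a7640N
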