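import Mathlib
import Pool.Agent.Lib.P4a7640N.Slow
import Pool.Agent.Lib.P4a7640.Furst
import Pool.Agent.Lib.P4a7640.Dist
import Pool.Agent.Lib.P4a7640L.Final

/-!
# Almost surely all nearby multiplicative functions satisfy the assertion
-/

open MeasureTheory ProbabilityTheory Filter Topology

namespace Pool.Agent.Lib.P4a7640N

open Pool.Agent.Lib.P4a7640

/-- on the product space -/
lemma vanish_prod {ν : ℕ → Measure ℤˣ} [∀ p, IsProbabilityMeasure (ν p)] :
    ∀ᵐ x ∂(Measure.infinitePi ν), ∀ f : ℕ → ℤˣ, MultS f →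
      Crit (fun p => min ((ν p).real {-1}) (1 - (ν p).real {-1})) f x → Vanish f := by
  filter_upwards [ae_all (ν := ν) (θ := fun p => (ν p).real {-1}) (fun p => rfl)] with x hx f hf hc
  have h1 : Vanish (rnd f) := fun H hne => hx f hc H hne
  have h2 : MultS (rnd f) := fun m n hm hn _ => rnd_mul f hm.ne' hn.ne'
  refine P4a7640L.vanish_of_primes hf h2 (fun p hp => ?_) h1
  unfold rnd
  rw [hp.factorization]
  simp

/-- on a general probability space -/
lemma vanish_indep {Ω : Type*} [MeasurableSpace Ω] {P : Measure Ω} [IsProbabilityMeasure P]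
    {ε : ℕ → Ω → ℤˣ} (hε : ∀ p, Measurable (ε p)) (hind : iIndepFun ε P) :
    ∀ᵐ ω ∂P, ∀ f : ℕ → ℤˣ, MultS f →
      Crit (fun p => min (P.real {ω | ε p ω = 1}) (P.real {ω | ε p ω = -1})) f (fun p => ε p ω) →
        Vanish f := by
  set ν : ℕ → Measure ℤˣ := fun p => P.map (ε p) with hν
  have : ∀ p, IsProbabilityMeasure (ν p) := fun p =>
    Measure.isProbabilityMeasure_map (hε p).aemeasurable
  have hmap := (iIndepFun_iff_map_fun_eq_infinitePi_map (fun p => hε p)).mp hind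
  have hreal : ∀ p, (ν p).real {-1} = P.real {ω | ε p ω = -1} := by
    intro p
    rw [hν]
    rw [map_measureReal_apply (hε p) (measurableSet_singleton _)]
    rfl
  have hone : ∀ p, 1 - (ν p).real {-1} = P.real {ω | ε p ω = 1} := by
    intro p
    have hms : MeasurableSet {ω | ε p ω = -1} := hε p (measurableSet_singleton _)
    rw [hreal, ← probReal_compl_eq_one_sub hms]
    congr 1
    ext ω
    simp only [Set.mem_compl_iff, Set.mem_ofPred_eq]
    rcases Int.units_eq_one_or (ε p ω) with h | h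
    · rw [h]
      simp
    · rw [h]
      simp
  have hτ : (fun p => min ((ν p).real {-1}) (1 - (ν p).real {-1})) =
      fun p => min (P.real {ω | ε p ω = 1}) (P.real {ω | ε p ω = -1}) := by
    funext p
    rw [hone, hreal, min_comm]
  have h1 := vanish_prod (ν := ν)
  rw [hτ, ← hmap] at h1
  exact ae_of_ae_map (measurable_pi_lambda _ hε).aemeasurable h1

lemma MS_eq (τ : ℕ → ℝ) (T N : ℕ) : MS τ T N = ∑ p ∈ (Finset.Icc 1 N).filter
    (fun p : ℕ => p.Prime ∧ T < p), τ p / (p:ℝ) := by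
  unfold MS
  refine Finset.sum_congr ?_ fun _ _ => rfl
  ext p
  rw [Finset.mem_filter, Finset.mem_filter, Finset.mem_Ioc, Finset.mem_Icc]
  constructor
  · rintro ⟨⟨h1, h2⟩, h3⟩
    exact ⟨⟨h3.one_lt.le, h2⟩, h3, h1⟩
  · rintro ⟨⟨h1, h2⟩, h3, h4⟩
    exact ⟨⟨h4, h2⟩, h3⟩

lemma ES_eq (y x : SS) (T N : ℕ) : ES y x T N = ∑ p ∈ (Finset.Icc 1 N).filter
    (fun p : ℕ => p.Prime ∧ T < p ∧ y p ≠ x p), (1:ℝ) / p := by
  unfold ES
  refine Finset.sum_congr ?_ fun _ _ => rfl
  ext p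
  rw [Finset.mem_filter, Finset.mem_filter, Finset.mem_Ioc, Finset.mem_Icc]
  constructor
  · rintro ⟨⟨h1, h2⟩, h3, h4⟩
    exact ⟨⟨h3.one_lt.le, h2⟩, h3, h1, h4⟩
  · rintro ⟨⟨h1, h2⟩, h3, h4, h5⟩
    exact ⟨⟨h4, h2⟩, h3, h5⟩

/-- twisting the signs by a fixed function -/
lemma vanish_twist {Ω : Type*} [MeasurableSpace Ω] {P : Measure Ω} [IsProbabilityMeasure P]
    {ε : ℕ → Ω → ℤˣ} (hε : ∀ p, Measurable (ε p)) (hind : iIndepFun ε P) (g : ℕ → ℤˣ) :
    ∀ᵐ ω ∂P, ∀ f : ℕ → ℤˣ, MultS f →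
      Crit (fun p => min (P.real {ω | ε p ω = 1}) (P.real {ω | ε p ω = -1})) f
        (fun p => g p * ε p ω) → Vanish f := by
  have hm : ∀ p, Measurable fun u : ℤˣ => g p * u := fun p => measurable_of_countable _
  have hε' : ∀ p, Measurable (fun ω => g p * ε p ω) := fun p => (hm p).comp (hε p)
  have hind' : iIndepFun (fun p ω => g p * ε p ω) P := hind.comp (fun p u => g p * u) hm
  have h1 := vanish_indep hε' hind'
  have hτ : (fun p => min (P.real {ω | g p * ε p ω = 1}) (P.real {ω | g p * ε p ω = -1})) =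
      fun p => min (P.real {ω | ε p ω = 1}) (P.real {ω | ε p ω = -1}) := by
    funext p
    rcases Int.units_eq_one_or (g p) with h | h
    · rw [h]
      simp only [one_mul]
    · rw [h]
      have e1 : {ω | -1 * ε p ω = 1} = {ω | ε p ω = -1} := by
        ext ω
        simp only [Set.mem_ofPred_eq]
        rcases Int.units_eq_one_or (ε p ω) with h' | h' <;> rw [h'] <;> decide
      have e2 : {ω | -1 * ε p ω = -1} = {ω | ε p ω = 1} := by
        ext ω
        simp only [Set.mem_ofPred_eq]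
        rcases Int.units_eq_one_or (ε p ω) with h' | h' <;> rw [h'] <;> decide
      rw [e1, e2, min_comm]
  rw [hτ] at h1
  exact h1

/-- the main theorem -/
theorem main {Ω : Type*} [MeasurableSpace Ω] {P : Measure Ω} [IsProbabilityMeasure P]
    {ε : ℕ → Ω → ℤˣ} (hε : ∀ p, Measurable (ε p)) (hind : iIndepFun ε P) (g : ℕ → ℕ → ℤˣ) :
    ∀ᵐ ω ∂P, ∀ i : ℕ, ∀ f : ℕ → ℤˣ, MultS f →
      Crit (fun p => min (P.real {ω | ε p ω = 1}) (P.real {ω | ε p ω = -1})) f
        (fun p => g i p * ε p ω) → Aperiodic f ∧ FairSystem f := by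
  rw [ae_all_iff]
  intro i
  filter_upwards [vanish_twist hε hind (g i)] with ω hω f hf hc
  have hv := hω f hf hc
  exact ⟨hv.aperiodic hf, fairAlong_of_vanish le_rfl hv⟩

end Pool.Agent.Lib.P4a7640N
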