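import Mathlib
import Pool.Agent.Lib.P4a7640L.MertensB

/-!
# Mass of the primes in `(√N, N]` with weights bounded below
-/

open Filter Topology

namespace Pool.Agent.Lib.P4a7640N

open Pool.Agent.Lib.P4a7640L

/-- Weights `m_p ≥ δ > 0` have mass bounded below in `(√N, N]`. -/
theorem mass_of_bdd {m : ℕ → ℝ} {δ : ℝ} (hδ : 0 < δ) (hm : ∀ p : ℕ, p.Prime → δ ≤ m p) :
    ∃ k : ℕ, ∃ c : ℝ, 0 < c ∧ ∀ᶠ N : ℕ in atTop,
      c ≤ ∑ p ∈ (Finset.Icc 1 N).filter (fun p : ℕ => p.Prime ∧ N < p ^ k), m p / (p : ℝ) := by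
  obtain ⟨C, hC0, hC⟩ := mertens_lower
  refine ⟨2, δ / 2, by positivity, ?_⟩
  have hlogT : Tendsto (fun N : ℕ => Real.log (N:ℝ)) atTop atTop :=
    Real.tendsto_log_atTop.comp tendsto_natCast_atTop_atTop
  have hl2 : (0.69:ℝ) < Real.log 2 := by linarith [Real.log_two_gt_d9]
  filter_upwards [hlogT.eventually_ge_atTop (20 * C + 2), eventually_ge_atTop 3] with N h1 h2
  have hl : 0 < Real.log N := by linarith
  have hN0 : (0:ℝ) < N := by exact_mod_cast (by omega : 0 < N)
  set β : ℝ := Real.log (Real.log N) with hβ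
  set α : ℝ := β - Real.log 2 with hα
  have hα' : α = Real.log (Real.log N / 2) := by
    rw [Real.log_div hl.ne' (by norm_num)]
  have hα0 : 0 ≤ α := by
    rw [hα']
    exact Real.log_nonneg (by linarith)
  have hαβ : α ≤ β := by linarith
  have hs := hC α β hα0 hαβ ((Finset.Icc 1 N).filter (fun p : ℕ => p.Prime ∧ N < p ^ 2)) (by
    intro p hp ha hb
    have hp1 : (1:ℝ) < p := by exact_mod_cast hp.one_lt
    have hlp : 0 < Real.log p := Real.log_pos hp1
    rw [Finset.mem_filter, Finset.mem_Icc]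
    refine ⟨⟨hp.one_lt.le, ?_⟩, hp, ?_⟩
    · have e1 : Real.log p < Real.log N := (Real.log_lt_log_iff hlp hl).1 hb
      have e2 : (p:ℝ) < N := (Real.log_lt_log_iff (by linarith) hN0).1 e1
      exact_mod_cast e2.le
    · rw [hα'] at ha
      have e1 : Real.log N / 2 < Real.log p := (Real.log_lt_log_iff (by linarith) hlp).1 ha
      have e2 : Real.log N < Real.log ((p:ℝ) ^ 2) := by
        rw [Real.log_pow]
        push_cast
        linarith
      have e3 : (N:ℝ) < (p:ℝ) ^ 2 := (Real.log_lt_log_iff hN0 (by positivity)).1 e2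
      exact_mod_cast e3)
  have hexp : Real.exp (-α) = 2 / Real.log N := by
    rw [hα', Real.exp_neg, Real.exp_log (by linarith), inv_div]
  rw [hexp] at hs
  have h3 : C * (2 / Real.log N) ≤ 1 / 10 := by
    rw [mul_div_assoc', div_le_iff₀ hl]
    linarith
  have h4 : 1 / 2 ≤ ∑ p ∈ (Finset.Icc 1 N).filter (fun p : ℕ => p.Prime ∧ N < p ^ 2), (1:ℝ) / p := by
    have : β - α = Real.log 2 := by rw [hα]; ring
    linarith
  calc δ / 2 = δ * (1 / 2) := by ring
    _ ≤ δ * ∑ p ∈ (Finset.Icc 1 N).filter (fun p : ℕ => p.Prime ∧ N < p ^ 2), (1:ℝ) / p := by gcongr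
    _ = ∑ p ∈ (Finset.Icc 1 N).filter (fun p : ℕ => p.Prime ∧ N < p ^ 2), δ / p := by
        rw [Finset.mul_sum]
        refine Finset.sum_congr rfl fun p _ => ?_
        ring
    _ ≤ _ := by
        refine Finset.sum_le_sum fun p hp => ?_
        rw [Finset.mem_filter] at hp
        exact div_le_div_of_nonneg_right (hm p hp.2.1) (Nat.cast_nonneg p)

end Pool.Agent.Lib.P4a7640N
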